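import Pool.Agent.H19.SYA.TA
import Pool.Agent.H2.ST.Basic2

/-!
The open cell (row UCL of the board `sya_modules`).
-/

set_option autoImplicit false

namespace Pool.Agent.H53.SYA

open MvPolynomial Pool.Agent.H2.ST Pool.Agent.H15.TG Pool.Agent.H19.SYA

section RR

variable {k L : Type} [Field k] [Field L] [Algebra k L]

/-- elements which lie in `B` after multiplication with a power of `d` -/
def RR (B : Subalgebra k L) (d : L) (hd : d ∈ B) : Subalgebra k L where
  carrier := {x | ∃ N : ℕ, x * d ^ N ∈ B}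
  mul_mem' := by
    rintro x y ⟨N, hx⟩ ⟨M, hy⟩
    refine ⟨N + M, ?_⟩
    have h : x * y * d ^ (N + M) = (x * d ^ N) * (y * d ^ M) := by ring
    rw [h]
    exact B.mul_mem hx hy
  add_mem' := by
    rintro x y ⟨N, hx⟩ ⟨M, hy⟩
    refine ⟨N + M, ?_⟩
    have h : (x + y) * d ^ (N + M) = (x * d ^ N) * d ^ M + (y * d ^ M) * d ^ N := by ring
    rw [h]
    exact B.add_mem (B.mul_mem hx (B.pow_mem hd _)) (B.mul_mem hy (B.pow_mem hd _))
  algebraMap_mem' := by
    intro r
    exact ⟨0, by simp⟩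

variable {B : Subalgebra k L} {d : L} {hd : d ∈ B}

theorem mem_RR {x : L} : x ∈ RR B d hd ↔ ∃ N : ℕ, x * d ^ N ∈ B := Iff.rfl

theorem RR_of_mem {x : L} (hx : x ∈ B) : x ∈ RR B d hd := ⟨0, by simpa using hx⟩

theorem inv_mem_RR (h0 : d ≠ 0) : d⁻¹ ∈ RR B d hd :=
  ⟨1, by rw [pow_one, inv_mul_cancel₀ h0]; exact B.one_mem⟩

/-- the group of units, together with zero -/
def U (R : Subalgebra k L) (x : L) : Prop := x ∈ R ∧ x⁻¹ ∈ R

variable {R : Subalgebra k L}

theorem U.one : U R 1 := ⟨R.one_mem, by rw [inv_one]; exact R.one_mem⟩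

theorem U.mul {x y : L} (hx : U R x) (hy : U R y) : U R (x * y) :=
  ⟨R.mul_mem hx.1 hy.1, by rw [mul_inv]; exact R.mul_mem hx.2 hy.2⟩

theorem U.inv {x : L} (hx : U R x) : U R x⁻¹ := ⟨hx.2, by rw [inv_inv]; exact hx.1⟩

theorem U.pow {x : L} (hx : U R x) (n : ℕ) : U R (x ^ n) :=
  ⟨R.pow_mem hx.1 n, by rw [← inv_pow]; exact R.pow_mem hx.2 n⟩

theorem U.zpow {x : L} (hx : U R x) (n : ℤ) : U R (x ^ n) := by
  obtain ⟨m, rfl | rfl⟩ := n.eq_nat_or_neg
  · rw [zpow_natCast]; exact hx.pow m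
  · rw [zpow_neg, zpow_natCast]; exact (hx.pow m).inv

theorem U.prod {ι : Type} (s : Finset ι) (f : ι → L) (h : ∀ i ∈ s, U R (f i)) :
    U R (∏ i ∈ s, f i) := by
  classical
  induction s using Finset.induction_on with
  | empty => simpa using U.one
  | insert a s ha ih =>
    rw [Finset.prod_insert ha]
    exact (h a (Finset.mem_insert_self a s)).mul
      (ih fun i hi => h i (Finset.mem_insert_of_mem hi))

theorem U.algebraMap {c : k} : U R (algebraMap k L c) :=
  ⟨R.algebraMap_mem c, by rw [← map_inv₀]; exact R.algebraMap_mem _⟩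

/-- factors of `d` are units -/
theorem U_factor {ι : Type} [Fintype ι] [DecidableEq ι] (f : ι → L) (hf : ∀ i, f i ∈ B)
    (hdf : d = ∏ i, f i) (h0 : d ≠ 0) (i : ι) : U (RR B d hd) (f i) := by
  refine ⟨RR_of_mem (hf i), ?_⟩
  have h1 : f i * ∏ j ∈ Finset.univ.erase i, f j = d := by
    rw [hdf]; exact Finset.mul_prod_erase _ _ (Finset.mem_univ i)
  have h2 : (f i)⁻¹ = d⁻¹ * ∏ j ∈ Finset.univ.erase i, f j := by
    have hi : f i ≠ 0 := by
      rintro h; rw [h, zero_mul] at h1; exact h0 h1.symm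
    rw [← h1, mul_inv]
    have h3 : ∏ j ∈ Finset.univ.erase i, f j ≠ 0 := by
      rintro h; rw [h, mul_zero] at h1; exact h0 h1.symm
    field_simp
  rw [h2]
  exact (RR B d hd).mul_mem (inv_mem_RR h0)
    (RR_of_mem (B.prod_mem fun j _ => hf j))

end RR

/-! ### Exponents -/

theorem expo {n : ℕ} (e ω : Fin n → ℕ) (l : ℕ) (hl : 0 < l)
    (ho : ∀ i, e i * ω i = l) (hc : ∀ i j, i ≠ j → Nat.Coprime (e i) (e j)) (c : Fin n → ℤ)
    (h1 : ∑ i, c i * (ω i : ℤ) = 1) (i : Fin n) :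
    ∃ μ : Fin n → ℤ, (∀ j, ω i * c j + e j * μ j = if j = i then 1 else 0) ∧ ∑ j, μ j = 0 := by
  have hd : ∀ j t : Fin n, t ≠ j → (e j : ℤ) ∣ ω t := by
    intro j t h
    have h2 : e j ∣ e t * ω t := by rw [ho t, ← ho j]; exact dvd_mul_right _ _
    exact_mod_cast (hc j t (Ne.symm h)).dvd_of_dvd_mul_left h2
  have hcp : ∀ j, IsCoprime (e j : ℤ) (ω j : ℤ) := by
    intro j
    obtain ⟨r, hr⟩ : (e j : ℤ) ∣ ∑ t ∈ Finset.univ.erase j, c t * (ω t : ℤ) :=
      Finset.dvd_sum fun t ht => Dvd.dvd.mul_left (hd j t (Finset.ne_of_mem_erase ht)) _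
    refine ⟨r, c j, ?_⟩
    have := Finset.add_sum_erase Finset.univ (fun t => c t * (ω t : ℤ)) (Finset.mem_univ j)
    rw [h1, hr] at this
    linarith
  have hν : ∀ j, (e j : ℤ) ∣ (if j = i then 1 else 0) - ω i * c j := by
    intro j
    -- the sum of `ν t ω t` is zero
    have hs : ∑ t, ((if t = i then (1 : ℤ) else 0) - ω i * c t) * ω t = 0 := by
      simp only [sub_mul, Finset.sum_sub_distrib, ite_mul, one_mul, zero_mul,
        Finset.sum_ite_eq', Finset.mem_univ, if_true]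
      have : ∑ t, (ω i : ℤ) * c t * ω t = ω i * ∑ t, c t * (ω t : ℤ) := by
        rw [Finset.mul_sum]; exact Finset.sum_congr rfl fun t _ => by ring
      rw [this, h1]; ring
    have h2 := Finset.add_sum_erase Finset.univ
      (fun t => ((if t = i then (1 : ℤ) else 0) - ω i * c t) * (ω t : ℤ)) (Finset.mem_univ j)
    rw [hs] at h2
    have h3 : (e j : ℤ) ∣ ∑ t ∈ Finset.univ.erase j,
        ((if t = i then (1 : ℤ) else 0) - ω i * c t) * (ω t : ℤ) :=
      Finset.dvd_sum fun t ht => Dvd.dvd.mul_left (hd j t (Finset.ne_of_mem_erase ht)) _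
    have h4 : (e j : ℤ) ∣ ((if j = i then (1 : ℤ) else 0) - ω i * c j) * (ω j : ℤ) := by
      have h5 : ((if j = i then (1 : ℤ) else 0) - ω i * c j) * (ω j : ℤ) =
        -∑ t ∈ Finset.univ.erase j,
          ((if t = i then (1 : ℤ) else 0) - ω i * c t) * (ω t : ℤ) := by linarith
      rw [h5]; exact (dvd_neg).2 h3
    exact (hcp j).dvd_of_dvd_mul_right h4
  choose μ hμ using hν
  refine ⟨μ, fun j => by rw [← hμ j]; ring, ?_⟩
  have h6 : (l : ℤ) * ∑ j, μ j = 0 := by
    have h7 : ∀ j, (l : ℤ) * μ j = ((if j = i then (1 : ℤ) else 0) - ω i * c j) * ω j := by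
      intro j
      rw [hμ j, ← ho j]; push_cast; ring
    rw [Finset.mul_sum, Finset.sum_congr rfl fun j _ => h7 j]
    simp only [sub_mul, Finset.sum_sub_distrib, ite_mul, one_mul, zero_mul,
        Finset.sum_ite_eq', Finset.mem_univ, if_true]
    have : ∑ t, (ω i : ℤ) * c t * ω t = ω i * ∑ t, c t * (ω t : ℤ) := by
      rw [Finset.mul_sum]; exact Finset.sum_congr rfl fun t _ => by ring
    rw [this, h1]; ring
  have hl' : (l : ℤ) ≠ 0 := by exact_mod_cast hl.ne'
  exact (mul_eq_zero.1 h6).resolve_left hl'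

theorem zprod {L ι : Type} [Field L] [Fintype ι] (h : L) (hh : h ≠ 0) (μ : ι → ℤ) :
    ∏ j, h ^ μ j = h ^ (∑ j, μ j) := by
  classical
  have : ∀ s : Finset ι, ∏ j ∈ s, h ^ μ j = h ^ (∑ j ∈ s, μ j) := by
    intro s
    induction s using Finset.induction_on with
    | empty => simp
    | insert a s ha ih => rw [Finset.prod_insert ha, Finset.sum_insert ha, zpow_add₀ hh, ih]
  exact this _

/-- the elements `g i` in terms of `τ` and the quotients `g_j^{e_j} / h` -/
theorem gform {L : Type} [Field L] {n : ℕ} (g : Fin n → L) (hg : ∀ i, g i ≠ 0)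
    (e ω : Fin n → ℕ) (c μ : Fin n → ℤ) (i : Fin n) (h : L) (hh : h ≠ 0)
    (hμ : ∀ j, ω i * c j + e j * μ j = if j = i then 1 else 0) (hs : ∑ j, μ j = 0) :
    g i = (∏ j, g j ^ c j) ^ (ω i) * ∏ j, (g j ^ e j / h) ^ μ j := by
  have h1 : ∏ j, (g j ^ e j / h) ^ μ j = ∏ j, (g j ^ e j) ^ μ j := by
    have : ∀ j, (g j ^ e j / h) ^ μ j = (g j ^ e j) ^ μ j / h ^ μ j := fun j => div_zpow _ _ _
    rw [Finset.prod_congr rfl fun j _ => this j, Finset.prod_div_distrib]
    have h2 : ∏ j, h ^ μ j = 1 := by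
      rw [zprod h hh, hs, zpow_zero]
    rw [h2, div_one]
  rw [h1, ← Finset.prod_pow, ← Finset.prod_mul_distrib]
  have h3 : ∀ j, (g j ^ c j) ^ (ω i) * (g j ^ e j) ^ μ j = g j ^ (if j = i then (1 : ℤ) else 0) := by
    intro j
    rw [← hμ j, zpow_add₀ (hg j), ← zpow_natCast (g j ^ c j) (ω i), ← zpow_mul,
      ← zpow_natCast (g j) (e j), ← zpow_mul, mul_comm (c j)]
  rw [Finset.prod_congr rfl fun j _ => h3 j]
  rw [Finset.prod_eq_single i]
  · simp
  · intro b _ hb; simp [hb]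
  · intro h'; exact absurd (Finset.mem_univ i) h'

/-! ### The polynomial ring -/

section main

variable {k : Type} [Field k] [CharZero k]

/-- two commuting primes with a slice are algebraically independent -/
theorem ai_pair (a_AI1 : Pool.Agent.H15.TG.T_AI1) (H p q S D : Pol k 2) (α : ℤ)
    (hp : br p H = (α : k) • p) (hα : α ≠ 0) (p0 : p ≠ 0)
    (h0 : br p S = 0) (h1 : br q S = D) (hD : D ≠ 0) : AlgebraicIndependent k ![p, q] := by
  have h := a_AI1 k (Pol k 2) Empty (Fin 2) ⊥ (fun i => i.elim) ![p, q] ![ad H, ad S]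
    Ideal.isPrime_bot (by
      intro i x hx
      rw [Ideal.mem_bot] at hx
      rw [hx, map_zero]; exact Ideal.zero_mem _) (by intro i j; exact j.elim) (by
      rw [Ideal.mem_bot, Matrix.det_fin_two]
      simp only [Matrix.of_apply, Matrix.cons_val_zero, Matrix.cons_val_one, ad_apply]
      rw [br_anti H p, br_anti S q, br_anti H q, br_anti S p, hp, h1, h0, neg_zero, mul_zero,
        sub_zero]
      refine mul_ne_zero (neg_ne_zero.2 ?_) (neg_ne_zero.2 hD)
      refine smul_ne_zero ?_ p0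
      exact_mod_cast hα) (by
      intro P hP
      rw [Ideal.mem_bot] at hP
      have h2 : P = C (coeff 0 P) := by
        exact MvPolynomial.eq_C_of_isEmpty P
      rw [h2, aeval_C] at hP
      have h3 : coeff 0 P = 0 := by
        have := (algebraMap k (Pol k 2)).injective (hP.trans (map_zero _).symm)
        exact this
      rw [h2, h3, map_zero])
  rw [algebraicIndependent_iff]
  intro P hP
  have h4 := h (rename Sum.inr P) (by
    rw [Ideal.mem_bot, aeval_rename]
    exact hP)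
  exact (rename_injective _ Sum.inr_injective) (h4.trans (map_zero _).symm)

/-- the constants `c_i` of the quotients `g_i^{e_i} / g_1^{e_1}` -/
theorem quot (W : ℤ → Submodule k (Pol k 2)) (K : Subalgebra k (Pol k 2)) (n : ℕ)
    (g : Fin (n + 2) → Pol k 2) (e ω : Fin (n + 2) → ℕ) (l : ℕ) (hcs : CS W K n g e ω l)
    (j : Fin (n + 2)) :
    ∃ a b : k, a ≠ 0 ∧ (j ≠ 1 → g j ^ e j = C a * g 0 ^ e 0 + C b * g 1 ^ e 1) := by
  by_cases hj : j = 1
  · exact ⟨1, 0, one_ne_zero, fun h => absurd hj h⟩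
  obtain ⟨a, b, hab⟩ := hcs.pl 0 1 j (by exact Fin.zero_ne_one)
  refine ⟨a, b, ?_, fun _ => hab⟩
  rintro rfl
  rw [map_zero, zero_mul, zero_add] at hab
  have h1 : g 1 ∣ g j ^ e j := by
    rw [hab]
    exact Dvd.dvd.mul_left (dvd_pow_self _ (hcs.ep 1).ne') _
  exact hcs.na 1 j (Ne.symm hj) ((hcs.pg 1).dvd_of_dvd_pow h1)

theorem pf_UCL (a_AI1 : Pool.Agent.H15.TG.T_AI1) (a_GN4 : T_GN4) : T_UCL := by
  classical
  intro k _ _ _ W H y w K n g e ω l M r S hy hcs hS h0S h1S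
  set D : Pol k 2 := ∏ i, g i with hD
  set φ : Pol k 2 →ₐ[k] FractionRing (Pol k 2) :=
    IsScalarTower.toAlgHom k (Pol k 2) (FractionRing (Pol k 2)) with hφ
  have φinj : Function.Injective φ := IsFractionRing.injective (Pol k 2) (FractionRing (Pol k 2))
  have gne : ∀ i, g i ≠ 0 := fun i => (hcs.pg i).ne_zero
  have Dne : D ≠ 0 := Finset.prod_ne_zero_iff.2 fun i _ => gne i
  have φg : ∀ i, φ (g i) ≠ 0 := fun i h => gne i (φinj (h.trans (map_zero φ).symm))
  have φD : φ D ≠ 0 := fun h => Dne (φinj (h.trans (map_zero φ).symm))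
  obtain ⟨c, hc⟩ := hcs.one
  choose A B hA hAB using quot W K n g e ω l hcs
  -- coordinates
  set τ : FractionRing (Pol k 2) := ∏ i, φ (g i) ^ c i with hτ
  set t : FractionRing (Pol k 2) := φ (g 0) ^ e 0 / φ (g 1) ^ e 1 with ht
  set v : Fin 4 → FractionRing (Pol k 2) := ![τ, t, φ H, φ S] with hv
  set cc : Fin (n + 2) → k := fun j => if j = 0 then 0 else if j = 1 then 0 else - (B j / A j)
    with hcc
  set aa : Fin (n + 2) → Fin 4 := fun j => if j = 0 then 0 else 1 with haa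
  set fac : Fin (n + 2) → FractionRing (Pol k 2) :=
    fun j => v (aa j) - algebraMap k (FractionRing (Pol k 2)) (cc j) with hfac
  have τne : τ ≠ 0 := Finset.prod_ne_zero_iff.2 fun i _ => zpow_ne_zero _ (φg i)
  have tne : t ≠ 0 := div_ne_zero (pow_ne_zero _ (φg 0)) (pow_ne_zero _ (φg 1))
  have h01 : (1 : Fin (n + 2)) ≠ 0 := Ne.symm Fin.zero_ne_one
  have fac0 : fac 0 = τ := by simp [hfac, haa, hcc, hv]
  have fac1 : fac 1 = t := by simp [hfac, haa, hcc, hv]
  have φC : ∀ a : k, φ (C a) = algebraMap k (FractionRing (Pol k 2)) a := fun a =>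
    φ.commutes a
  have facj : ∀ j, j ≠ 0 → j ≠ 1 →
      φ (g j) ^ e j / φ (g 1) ^ e 1 = algebraMap k (FractionRing (Pol k 2)) (A j) * fac j := by
    intro j hj0 hj1
    have h1 : fac j = t + algebraMap k (FractionRing (Pol k 2)) (B j / A j) := by
      simp [hfac, haa, hcc, hv, hj0, hj1]
    have h2 := congrArg φ (hAB j hj1)
    rw [map_pow, map_add, map_mul, map_mul, map_pow, map_pow, φC, φC] at h2
    have h3 : algebraMap k (FractionRing (Pol k 2)) (A j) ≠ 0 := by
      rw [Ne, map_eq_zero]; exact hA j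
    have h4 := pow_ne_zero (e 1) (φg 1)
    rw [h1, h2, ht, map_div₀]
    field_simp
  have facne : ∀ j, fac j ≠ 0 := by
    intro j
    by_cases hj0 : j = 0
    · rw [hj0, fac0]; exact τne
    by_cases hj1 : j = 1
    · rw [hj1, fac1]; exact tne
    intro h
    have h1 := facj j hj0 hj1
    rw [h, mul_zero] at h1
    exact div_ne_zero (pow_ne_zero _ (φg j)) (pow_ne_zero _ (φg 1)) h1
  set d : FractionRing (Pol k 2) := ∏ j, fac j with hd
  have dne : d ≠ 0 := Finset.prod_ne_zero_iff.2 fun j _ => facne j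
  set BB : Subalgebra k (FractionRing (Pol k 2)) := Algebra.adjoin k (Set.range v) with hBB
  have vB : ∀ i, v i ∈ BB := fun i => Algebra.subset_adjoin ⟨i, rfl⟩
  have fB : ∀ j, fac j ∈ BB := fun j => BB.sub_mem (vB _) (BB.algebraMap_mem _)
  have dB : d ∈ BB := BB.prod_mem fun j _ => fB j
  set R := RR BB d dB with hR
  have Ufac : ∀ j, U R (fac j) := fun j => U_factor fac fB hd dne j
  have Uτ : U R τ := fac0 ▸ Ufac 0
  have Ut : U R t := fac1 ▸ Ufac 1
  have Uq : ∀ j, U R (φ (g j) ^ e j / φ (g 1) ^ e 1) := by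
    intro j
    by_cases hj0 : j = 0
    · rw [hj0]; exact Ut
    by_cases hj1 : j = 1
    · rw [hj1, div_self (pow_ne_zero _ (φg 1))]; exact U.one
    rw [facj j hj0 hj1]
    exact U.algebraMap.mul (Ufac j)
  have Ug : ∀ i, U R (φ (g i)) := by
    intro i
    obtain ⟨μ, hμ, hs⟩ := expo e ω l hcs.lp hcs.eo hcs.cop c hc i
    rw [gform (fun j => φ (g j)) φg e ω c μ i (φ (g 1) ^ e 1) (pow_ne_zero _ (φg 1)) hμ hs]
    exact (Uτ.pow _).mul (U.prod _ _ fun j _ => (Uq j).zpow _)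
  have UD : U R (φ D) := by
    rw [hD, map_prod]; exact U.prod _ _ fun j _ => Ug j
  -- the pair `g 0, g 1`
  have ωp : ∀ i, 0 < ω i := by
    intro i
    have h1 := hcs.eo i
    have h2 := hcs.lp
    rcases Nat.eq_zero_or_pos (ω i) with h | h
    · rw [h, mul_zero] at h1; omega
    · exact h
  have hcp : Cp W (g 0) (g 1) (ω 0) (ω 1) :=
    { hp := hcs.gw 0
      hq := hcs.gw 1
      pa := by exact_mod_cast ωp 0
      pb := by exact_mod_cast ωp 1
      lp := hcs.ln _ (hcs.gK 0)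
      lq := hcs.ln _ (hcs.gK 1)
      pq := hcs.cm _ (hcs.gK 0) _ (hcs.gK 1)
      ai := ai_pair a_AI1 H (g 0) (g 1) S (D ^ M) (ω 0)
        (hy.HE _ _ (hcs.gw 0)) (by exact_mod_cast (ωp 0).ne') (gne 0) h0S h1S
        (pow_ne_zero _ Dne) }
  have DK : D ∈ K := K.prod_mem fun i _ => hcs.gK i
  have gen := a_GN4 k W H y w K (g 0) (g 1) D S (ω 0) (ω 1) r M hy hcs.toCC hcp (hcs.gK 0)
    (hcs.gK 1) DK (Finset.dvd_prod_of_mem g (Finset.mem_univ 0)) Dne hS h0S h1S
  have hle : Algebra.adjoin k ((K : Set (Pol k 2)) ∪ {H, S}) ≤ R.comap φ := by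
    refine Algebra.adjoin_le ?_
    rintro f (hf | hf | hf)
    · have h1 := hcs.gen f hf
      have h2 : Algebra.adjoin k (Set.range g) ≤ R.comap φ := by
        refine Algebra.adjoin_le ?_
        rintro _ ⟨i, rfl⟩
        exact (Ug i).1
      exact h2 h1
    · rw [hf]
      have : φ H = v 2 := by simp [hv]
      change φ H ∈ R
      rw [this]; exact RR_of_mem (vB 2)
    · rw [Set.mem_singleton_iff.1 hf]
      have : φ S = v 3 := by simp [hv]
      change φ S ∈ R
      rw [this]; exact RR_of_mem (vB 3)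
  have all : ∀ F : Pol k 2, φ F ∈ R := by
    intro F
    obtain ⟨N, hN⟩ := gen F
    have h1 : φ (D ^ N * F) ∈ R := hle hN
    rw [map_mul, map_pow] at h1
    have h2 : φ F = (φ D)⁻¹ ^ N * (φ D ^ N * φ F) := by
      rw [← mul_assoc, ← mul_pow, inv_mul_cancel₀ φD, one_pow, one_mul]
    rw [h2]
    exact R.mul_mem (R.pow_mem UD.2 N) h1
  have toP : ∀ x ∈ R, ∃ (N : ℕ) (P : MvPolynomial (Fin 4) k), x * d ^ N = aeval v P := by
    rintro x ⟨N, hN⟩
    rw [hBB, Algebra.adjoin_range_eq_range_aeval] at hN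
    obtain ⟨P, hP⟩ := hN
    exact ⟨N, P, hP.symm⟩
  have dd : d = ∏ j, (v (aa j) - algebraMap k (FractionRing (Pol k 2)) (cc j)) := hd
  refine ⟨v, cc, ?_, ?_, ?_, ?_⟩
  · -- independence
    have h1 : ∀ x ∈ R, IsAlgebraic BB x := by
      rintro x ⟨N, hN⟩
      have h2 : IsAlgebraic BB (algebraMap BB (FractionRing (Pol k 2)) ⟨d ^ N, BB.pow_mem dB N⟩) :=
        isAlgebraic_algebraMap _
      have h3 : IsAlgebraic BB (algebraMap BB (FractionRing (Pol k 2)) ⟨x * d ^ N, hN⟩) :=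
        isAlgebraic_algebraMap _
      have h4 : x = algebraMap BB (FractionRing (Pol k 2)) ⟨x * d ^ N, hN⟩ *
          (algebraMap BB (FractionRing (Pol k 2)) ⟨d ^ N, BB.pow_mem dB N⟩)⁻¹ := by
        change x = (x * d ^ N) * (d ^ N)⁻¹
        rw [mul_assoc, mul_inv_cancel₀ (pow_ne_zero _ dne), mul_one]
      rw [h4]
      exact h3.mul h2.inv
    have alg : Algebra.IsAlgebraic BB (FractionRing (Pol k 2)) := by
      refine ⟨fun z => ?_⟩
      obtain ⟨a, b, hab⟩ := IsFractionRing.div_surjective (A := Pol k 2) z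
      rw [← hab.2, div_eq_mul_inv]
      exact (h1 _ (all a)).mul (h1 _ (all b)).inv
    have h5 : AlgebraicIndependent k (fun s : Fin 2 ⊕ Fin 2 => φ (X s)) :=
      (MvPolynomial.algebraicIndependent_X (Fin 2 ⊕ Fin 2) k).map' φinj
    have h6 := h5.cardinalMk_le_trdeg
    have h7 : Cardinal.mk (Fin 4) ≤ Algebra.trdeg k (FractionRing (Pol k 2)) := by
      refine le_trans (le_of_eq ?_) h6
      simp only [Cardinal.mk_sum, Cardinal.mk_fin, Cardinal.lift_natCast]
      norm_num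
    exact (Algebra.IsAlgebraic.isTranscendenceBasis_of_le_trdeg_of_finite k v h7).1
  · intro s
    obtain ⟨N, P, hP⟩ := toP _ (all (X s))
    exact ⟨N, P, hP⟩
  · obtain ⟨N, P, hP⟩ := toP _ UD.2
    refine ⟨N, P, ?_⟩
    rw [← hP]
    change φ D * ((φ D)⁻¹ * d ^ N) = d ^ N
    rw [← mul_assoc, mul_inv_cancel₀ φD, one_mul]
  · intro i
    fin_cases i
    · -- τ
      refine ⟨∑ i, (c i).natAbs, ∏ i, g i ^ (c i + (∑ i, (c i).natAbs : ℕ)).toNat, ?_⟩
      change τ * φ D ^ (∑ i, (c i).natAbs) = _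
      rw [hτ, hD, map_prod, map_prod, ← Finset.prod_pow, ← Finset.prod_mul_distrib]
      refine Finset.prod_congr rfl fun i _ => ?_
      have h1 : 0 ≤ c i + (∑ i, (c i).natAbs : ℕ) := by
        have h2 : (c i).natAbs ≤ ∑ i, (c i).natAbs :=
          Finset.single_le_sum (f := fun i => (c i).natAbs) (fun _ _ => Nat.zero_le _)
            (Finset.mem_univ i)
        omega
      rw [map_pow, ← zpow_natCast (φ (g i)) (∑ i, (c i).natAbs),
        ← zpow_natCast (φ (g i)) (c i + (∑ i, (c i).natAbs : ℕ)).toNat, Int.toNat_of_nonneg h1,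
        zpow_add₀ (φg i)]
    · refine ⟨e 1, g 0 ^ e 0 * (∏ j ∈ Finset.univ.erase 1, g j) ^ e 1, ?_⟩
      change t * φ D ^ e 1 = _
      have h1 : D = g 1 * ∏ j ∈ Finset.univ.erase 1, g j :=
        (Finset.mul_prod_erase _ _ (Finset.mem_univ _)).symm
      rw [h1, map_mul, map_mul, mul_pow, map_pow, map_pow, ht]
      have h2 := pow_ne_zero (e 1) (φg 1)
      field_simp
    · exact ⟨0, H, by simp [hv]⟩
    · exact ⟨0, S, by simp [hv]⟩

end main

end Pool.Agent.H53.SYA
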